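import Pool.Agent.D0H38.SC.U

set_option autoImplicit false

/-!
# The star discrepancy of scrambled `(t,m,d)`-nets

Let `d ≥ 2`. The star discrepancy of every nested (Owen) scrambling of a `(t,m,d)`-net in base `b` is
at most `d b^(t+d-1) m^(d-1) / b^m`, and for all but a proportion `exp(-b^(c m))` of the
scramblings it is at least `c (m/(t+1))^(d-1) / b^m`, where `c > 0` depends only on `d`. So for
fixed `b` and `t` the star discrepancy of a scrambled net of `N = b^m` points is of the exact order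
`(log N)^(d-1) / N` with a probability extremely close to `1`.
-/

namespace Pool.Agent.Results.MP_173de9_an.ScrambledNets

open Finset MeasureTheory

/-- The value of the permutation `π` of the digits `0, …, b-1` at the digit `a`. -/
def permDigit {b : ℕ} (π : Equiv.Perm (Fin b)) (a : ℕ) : ℕ :=
  if h : a < b then (π ⟨a, h⟩ : ℕ) else a

/-- The data of a nested scrambling of depth `M` in base `b` (one coordinate): a permutation of the
digits for each level `l < M` and each `v < b^M`. Only the permutations with `v < b^l` are used. -/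
abbrev Scrambling (b M : ℕ) : Type := Fin M → Fin (b ^ M) → Equiv.Perm (Fin b)

/-- The permutation that belongs to the elementary interval `[v/b^l, (v+1)/b^l)`. -/
def nodePerm {b M : ℕ} (s : Scrambling b M) (l v : ℕ) : Equiv.Perm (Fin b) :=
  if h : l < M ∧ v < b ^ M then s ⟨l, h.1⟩ ⟨v, h.2⟩ else 1

/-- Nested scrambling of `x ∈ [0,1)`: for each `l < M` the digit number `l+1` of `x` in base `b`,
`⌊b^(l+1) x⌋ mod b`, is replaced by its image under the permutation that belongs to the elementary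
interval of level `l` containing `x` (so to the first `l` digits of `x`); the digits after the first
`M` ones are kept. -/
noncomputable def scramble {b M : ℕ} (s : Scrambling b M) (x : ℝ) : ℝ :=
  (∑ l ∈ range M, (permDigit (nodePerm s l ⌊(b:ℝ) ^ l * x⌋₊) (⌊(b:ℝ) ^ (l + 1) * x⌋₊ % b) : ℝ) /
    (b:ℝ) ^ (l + 1)) + Int.fract ((b:ℝ) ^ M * x) / (b:ℝ) ^ M

/-- The scrambled point set: the coordinates are scrambled separately. -/
noncomputable def scrambleSet {N d b M : ℕ} (σ : Fin d → Scrambling b M)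
    (ξ : Fin N → Fin d → ℝ) : Fin N → Fin d → ℝ := fun μ j => scramble (σ j) (ξ μ j)

/-- The local discrepancy `∏ x_j - (1/N) ∑_μ χ_{[0,x]}(ξ^μ)`. -/
noncomputable def localDisc {N d : ℕ} (ξ : Fin N → Fin d → ℝ) (x : Fin d → ℝ) : ℝ :=
  ∏ j, x j - (1 / (N:ℝ)) *
    ∑ μ : Fin N, (Set.Icc (0 : Fin d → ℝ) x).indicator (fun _ => (1:ℝ)) (ξ μ)

/-- `D(ξ,N,d)_∞`: the `L_∞` norm of the local discrepancy over `[0,1]^d`. -/
noncomputable def starDisc {N d : ℕ} (ξ : Fin N → Fin d → ℝ) : ENNReal :=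
  eLpNorm (localDisc ξ) ⊤ (volume.restrict (Set.Icc (0 : Fin d → ℝ) 1))

open Classical in
/-- `(t,m,d)`-net in base `b`: `b^m` points such that every elementary interval
`∏ [v_i/b^(k_i), (v_i+1)/b^(k_i))` of volume `b^(t-m)` contains exactly `b^t` of them. -/
def IsNet (b t m : ℕ) {d : ℕ} (ξ : Fin (b ^ m) → Fin d → ℝ) : Prop :=
  ∀ k v : Fin d → ℕ, ∑ i, k i + t = m → (∀ i, v i < b ^ k i) →
    (univ.filter (fun μ => ∀ i, (v i : ℝ) / (b:ℝ) ^ k i ≤ ξ μ i ∧
      ξ μ i < ((v i : ℝ) + 1) / (b:ℝ) ^ k i)).card = b ^ t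

/-- **The star discrepancy of scrambled nets.** -/
theorem result (d : ℕ) (hd : 2 ≤ d) : ∃ c : ℝ, 0 < c ∧ ∀ b t m M : ℕ, 2 ≤ b → 1 ≤ m → t ≤ m →
    m ≤ M → ∀ ξ : Fin (b ^ m) → Fin d → ℝ, (∀ μ j, 0 ≤ ξ μ j ∧ ξ μ j < 1) → IsNet b t m ξ →
    (∀ σ : Fin d → Scrambling b M, starDisc (scrambleSet σ ξ) ≤
      ENNReal.ofReal (d * (b:ℝ) ^ (t + d - 1) * (m:ℝ) ^ (d - 1) / (b:ℝ) ^ m)) ∧
    (Nat.card {σ : Fin d → Scrambling b M // starDisc (scrambleSet σ ξ) <
      ENNReal.ofReal (c * ((m:ℝ) / (t + 1)) ^ (d - 1) / (b:ℝ) ^ m)} : ℝ) ≤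
      Real.exp (-(b:ℝ) ^ (c * m)) * Nat.card (Fin d → Scrambling b M) := by
  obtain ⟨c, hc, h⟩ := Pool.Agent.D0H38.SC.net_card hd
  refine ⟨c, hc, fun b t m M hb hm htm hmM ξ hξ hnet => ⟨fun σ => ?_, h b t m M hb hmM ξ hξ hnet⟩⟩
  obtain ⟨e, rfl⟩ : ∃ e, d = e + 1 := ⟨d - 1, by omega⟩
  have h1 := Pool.Agent.D0H38.SC.scr_upper hb hm htm hmM hξ hnet σ
  rw [show t + (e + 1) - 1 = t + e by omega, Nat.add_sub_cancel]
  push_cast
  exact h1

end Pool.Agent.Results.MP_173de9_an.ScrambledNets
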