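import Pool.Agent.D0H38.SC.J

set_option autoImplicit false

/-!
# The star discrepancy of scrambled point sets

For every `N`-point set in `[0,1)^d` and every base `b`, all but a proportion `exp(-N^c)` of its
nested (Owen) scramblings in base `b` have `L_∞` star discrepancy at least
`c (log N / log (b log N))^(d-1) / N`.
-/

namespace Pool.Agent.Results.MP_173de9_an.ScrambledPointSets

open Finset MeasureTheory

/-- The value of the permutation `π` of the digits `0, …, b-1` at the digit `a`. -/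
def permDigit {b : ℕ} (π : Equiv.Perm (Fin b)) (a : ℕ) : ℕ :=
  if h : a < b then (π ⟨a, h⟩ : ℕ) else a

/-- The data of a nested scrambling of depth `m` in base `b` (one coordinate): a permutation of the
digits for each level `l < m` and each `v < b^m`. Only the permutations with `v < b^l` are used. -/
abbrev Scrambling (b m : ℕ) : Type := Fin m → Fin (b ^ m) → Equiv.Perm (Fin b)

/-- The permutation that belongs to the elementary interval `[v/b^l, (v+1)/b^l)`. -/
def nodePerm {b m : ℕ} (s : Scrambling b m) (l v : ℕ) : Equiv.Perm (Fin b) :=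
  if h : l < m ∧ v < b ^ m then s ⟨l, h.1⟩ ⟨v, h.2⟩ else 1

/-- Nested scrambling of `x ∈ [0,1)`: for each `l < m` the digit number `l+1` of `x` in base `b`,
`⌊b^(l+1) x⌋ mod b`, is replaced by its image under the permutation that belongs to the elementary
interval of level `l` containing `x` (so to the first `l` digits of `x`); the digits after the first
`m` ones are kept. -/
noncomputable def scramble {b m : ℕ} (s : Scrambling b m) (x : ℝ) : ℝ :=
  (∑ l ∈ range m, (permDigit (nodePerm s l ⌊(b:ℝ) ^ l * x⌋₊) (⌊(b:ℝ) ^ (l + 1) * x⌋₊ % b) : ℝ) /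
    (b:ℝ) ^ (l + 1)) + Int.fract ((b:ℝ) ^ m * x) / (b:ℝ) ^ m

/-- The scrambled point set: the coordinates are scrambled separately. -/
noncomputable def scrambleSet {N d b m : ℕ} (σ : Fin d → Scrambling b m)
    (ξ : Fin N → Fin d → ℝ) : Fin N → Fin d → ℝ := fun μ j => scramble (σ j) (ξ μ j)

/-- The local discrepancy `∏ x_j - (1/N) ∑_μ χ_{[0,x]}(ξ^μ)`. -/
noncomputable def localDisc {N d : ℕ} (ξ : Fin N → Fin d → ℝ) (x : Fin d → ℝ) : ℝ :=
  ∏ j, x j - (1 / (N:ℝ)) *
    ∑ μ : Fin N, (Set.Icc (0 : Fin d → ℝ) x).indicator (fun _ => (1:ℝ)) (ξ μ)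

/-- `D(ξ,N,d)_∞`: the `L_∞` norm of the local discrepancy over `[0,1]^d`. -/
noncomputable def starDisc {N d : ℕ} (ξ : Fin N → Fin d → ℝ) : ENNReal :=
  eLpNorm (localDisc ξ) ⊤ (volume.restrict (Set.Icc (0 : Fin d → ℝ) 1))

/-- **Scrambled point sets.** -/
theorem result (d : ℕ) (hd : 1 ≤ d) : ∃ c : ℝ, 0 < c ∧ ∀ b m N : ℕ, 2 ≤ b → 3 ≤ N →
    N ^ 2 ≤ b ^ m → ∀ ξ : Fin N → Fin d → ℝ, (∀ μ j, 0 ≤ ξ μ j ∧ ξ μ j < 1) →
    (Nat.card {σ : Fin d → Scrambling b m // starDisc (scrambleSet σ ξ) <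
      ENNReal.ofReal (c * (Real.log N / Real.log (b * Real.log N)) ^ (d - 1) / N)} : ℝ) ≤
      Real.exp (-(N:ℝ) ^ c) * Nat.card (Fin d → Scrambling b m) :=
  Pool.Agent.D0H38.SC.main_card hd

end Pool.Agent.Results.MP_173de9_an.ScrambledPointSets
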