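import Pool.Agent.D0H38.SBI.Final

set_option autoImplicit false

/-!
# The small ball inequality in dimension `d ≥ 3` with gain `1/(2d)`

For `d ≥ 3`, `n ≥ 2` and all real coefficients `α_R`, indexed by the dyadic rectangles `R ⊂ [0,1)^d`
of volume at least `2^(-n)`,
`n^((d-1)/2 - 1/(2d)) (log n)^(1/2) ‖∑_{|R| ≥ 2^(-n)} α_R h_R‖_∞ ≥ c(d) 2^(-n) ∑_{|R| = 2^(-n)} |α_R|`.
-/

namespace Pool.Agent.Results.MP_173de9_an.SmallBallInequality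

open Finset MeasureTheory

/-- The `L_∞`-normalised Haar function of the dyadic interval `[m 2^(-k), (m+1) 2^(-k))`:
`-1` on the left half, `1` on the right half, `0` elsewhere. -/
noncomputable def haar (k m : ℕ) (t : ℝ) : ℝ :=
  if (m : ℝ) / 2 ^ k ≤ t ∧ t < ((m : ℝ) + 1 / 2) / 2 ^ k then -1
  else if ((m : ℝ) + 1 / 2) / 2 ^ k ≤ t ∧ t < ((m : ℝ) + 1) / 2 ^ k then 1
  else 0

/-- The Haar sum `∑_R α_R h_R` over all dyadic rectangles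
`R = ∏_j [m_j 2^(-k_j), (m_j+1) 2^(-k_j)) ⊂ [0,1)^d` of volume at least `2^(-n)`, that is
`∑_j k_j ≤ n` and `0 ≤ m_j < 2^(k_j)`; here `α_R = α k m` and `h_R(x) = ∏_j haar (k_j) (m_j) (x_j)`. -/
noncomputable def haarSum {d : ℕ} (n : ℕ) (α : (Fin d → ℕ) → (Fin d → ℕ) → ℝ)
    (x : Fin d → ℝ) : ℝ :=
  ∑ k ∈ (Fintype.piFinset (fun _ : Fin d => range (n + 1))).filter (fun k => ∑ j, k j ≤ n),
    ∑ m ∈ Fintype.piFinset (fun j => range (2 ^ k j)), α k m * ∏ j, haar (k j) (m j) (x j)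

/-- `∑_R |α_R|` over the dyadic rectangles `R ⊂ [0,1)^d` of volume exactly `2^(-n)`. -/
noncomputable def absSum {d : ℕ} (n : ℕ) (α : (Fin d → ℕ) → (Fin d → ℕ) → ℝ) : ℝ :=
  ∑ k ∈ (Fintype.piFinset (fun _ : Fin d => range (n + 1))).filter (fun k => ∑ j, k j = n),
    ∑ m ∈ Fintype.piFinset (fun j => range (2 ^ k j)), |α k m|

theorem absSum_eq {d : ℕ} (n : ℕ) (α : (Fin d → ℕ) → (Fin d → ℕ) → ℝ) :
    absSum n α = Pool.Agent.D0H38.SBI.cf n α := by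
  unfold absSum Pool.Agent.D0H38.SBI.cf
  apply Finset.sum_congr _ (fun _ _ => rfl)
  ext k
  rw [Finset.mem_filter, Fintype.mem_piFinset, Finset.mem_piAntidiag]
  constructor
  · rintro ⟨_, h⟩
    exact ⟨h, fun i _ => mem_univ i⟩
  · rintro ⟨h, _⟩
    have h' : ∑ c, k c = n := h
    refine ⟨fun c => ?_, h'⟩
    have : k c ≤ ∑ c, k c := Finset.single_le_sum (fun _ _ => Nat.zero_le _) (mem_univ c)
    rw [mem_range]
    omega

/-- **The small ball inequality with gain `1/(2d)`** (up to `(log n)^(1/2)`). -/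
theorem result (d : ℕ) (hd : 3 ≤ d) : ∃ c : ℝ, 0 < c ∧ ∀ n : ℕ, 2 ≤ n →
    ∀ α : (Fin d → ℕ) → (Fin d → ℕ) → ℝ,
      ENNReal.ofReal (c * ((1 / 2) ^ n * absSum n α) /
        ((n : ℝ) ^ (((d : ℝ) - 1) / 2 - 1 / (2 * (d : ℝ))) * (Real.log n) ^ (1 / 2 : ℝ))) ≤
      eLpNorm (haarSum n α) ⊤ (volume.restrict (Set.Icc (0 : Fin d → ℝ) 1)) := by
  obtain ⟨D, rfl⟩ : ∃ D, d = D + 1 := ⟨d - 1, by omega⟩
  obtain ⟨c, hc, H⟩ := Pool.Agent.D0H38.SBI.small_ball D (by omega)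
  refine ⟨c, hc, fun n hn α => ?_⟩
  have h := H n hn α
  have hn0 : (0 : ℝ) < n := by exact_mod_cast (by omega : 0 < n)
  have hlog : 0 < Real.log n := Real.log_pos (by exact_mod_cast (by omega : 1 < n))
  have e1 : (((D + 1 : ℕ) : ℝ) - 1) / 2 - 1 / (2 * ((D + 1 : ℕ) : ℝ)) =
      (D : ℝ) / 2 - 1 / (2 * ((D : ℝ) + 1)) := by
    push_cast
    ring
  have e2 : c * ((1 / 2) ^ n * absSum n α) /
        ((n : ℝ) ^ ((((D + 1 : ℕ) : ℝ) - 1) / 2 - 1 / (2 * ((D + 1 : ℕ) : ℝ))) *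
          (Real.log n) ^ (1 / 2 : ℝ)) =
      c * ((n : ℝ) ^ (-((D : ℝ) / 2 - 1 / (2 * ((D : ℝ) + 1)))) *
      (Real.log n) ^ (-(1 / 2 : ℝ))) * ((1 / 2 : ℝ) ^ n * Pool.Agent.D0H38.SBI.cf n α) := by
    rw [e1, Real.rpow_neg hn0.le, Real.rpow_neg hlog.le]
    rw [absSum_eq]
    field_simp
  rw [e2]
  exact h

end Pool.Agent.Results.MP_173de9_an.SmallBallInequality
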