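import Pool.Agent.D0H39.SX6.Final6
import Pool.Agent.N224.Seq.Concat

set_option autoImplicit false

/-!
# Star discrepancy: saving `1/6` in the exponent for `d ≥ 4` and `1/7` for `d = 3`

* For every `d ≥ 3`: `D(m,d)_∞ ≤ C (ln m)^(d-1-σ(d)) (ln ln m)^2 / m` for all `m ≥ 3`, where
  `σ(3) = 1/7` and `σ(d) = 1/6` for `d ≥ 4`.
* For every `d ≥ 2` there is one infinite sequence in `[0,1)^d` whose first `m` terms have star
  discrepancy at most `C (ln m)^(d-σ(d+1)) (ln ln m)^2 / m` for all `m ≥ 3`, and so have the `m`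
  points `(ξ_i, i/m)`, `i < m`, in dimension `d + 1`.
-/

namespace Pool.Agent.Results.MP_173de9_an.StarDiscSixth

open MeasureTheory Finset Pool.Agent.N224.Seq

/-- The local discrepancy `∏ x_j - (1/m) Σ_μ χ_{[0,x]}(ξ^μ)` of `m` points `ξ` at `x`. -/
noncomputable def localDisc {m d : ℕ} (ξ : Fin m → Fin d → ℝ) (x : Fin d → ℝ) : ℝ :=
  ∏ j, x j - (1 / (m:ℝ)) * ∑ μ : Fin m, (Set.Icc (0 : Fin d → ℝ) x).indicator (fun _ => (1:ℝ)) (ξ μ)

/-- The `L_∞` star discrepancy `D(ξ,m,d)_∞` of the problem. -/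
noncomputable def starDisc {m d : ℕ} (ξ : Fin m → Fin d → ℝ) : ENNReal :=
  eLpNorm (localDisc ξ) ⊤ (volume.restrict (Set.Icc (0 : Fin d → ℝ) 1))

/-- `D(m,d)_∞`: the infimum over all `m`-point sets (repetitions allowed) in `[0,1]^d`. -/
noncomputable def optDisc (m d : ℕ) : ENNReal :=
  ⨅ (ξ : Fin m → Fin d → ℝ) (_ : ∀ μ, ξ μ ∈ Set.Icc (0 : Fin d → ℝ) 1), starDisc ξ

/-- The saving `σ(d)` in the exponent: `1/7` for `d = 3` and `1/6` otherwise. -/
noncomputable def saving (d : ℕ) : ℝ := if d = 3 then 1 / 7 else 1 / 6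

/-- The first `m` terms of an infinite sequence in dimension `d`. -/
def firstTerms {d : ℕ} (ξ : ℕ → Fin d → ℝ) (m : ℕ) : Fin m → Fin d → ℝ := fun i => ξ i

/-- The `m` points `(ξ_i, i / m)`, `0 ≤ i < m`, in dimension `d + 1`. -/
noncomputable def graphPoints {d : ℕ} (ξ : ℕ → Fin d → ℝ) (m : ℕ) : Fin m → Fin (d + 1) → ℝ :=
  fun i => Fin.snoc (ξ i) (((i : ℕ) : ℝ) / m)

lemma localDisc_eq {m d : ℕ} (ξ : Fin m → Fin d → ℝ) (hξ : ∀ i j, 0 ≤ ξ i j) (x : Fin d → ℝ)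
    (hm : 0 < m) (S : Finset (Fin m)) (hS : ∀ i, i ∈ S ↔ ∀ j, ξ i j ≤ x j) :
    localDisc ξ x = -(((S.card : ℝ) - m * ∏ j, x j) / m) := by
  classical
  have hm0 : (0:ℝ) < m := by exact_mod_cast hm
  have h2 : ∑ μ : Fin m, (Set.Icc (0 : Fin d → ℝ) x).indicator (fun _ => (1:ℝ)) (ξ μ) =
      (S.card : ℝ) := by
    have : S = Finset.univ.filter (fun μ => ∀ j, ξ μ j ≤ x j) := by
      ext i; simp [hS]
    rw [this, Finset.card_filter]
    push_cast
    apply Finset.sum_congr rfl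
    intro μ _
    rw [Set.indicator_apply]
    by_cases h : ∀ j, ξ μ j ≤ x j
    · rw [if_pos h, if_pos ⟨fun j => hξ μ j, h⟩]
    · rw [if_neg h, if_neg fun h' => h h'.2]
  unfold localDisc
  rw [h2]
  field_simp
  ring

lemma starDisc_le {m d : ℕ} (ξ : Fin m → Fin d → ℝ) {B : ℝ}
    (h : ∀ x : Fin d → ℝ, (∀ j, 0 ≤ x j) → (∀ j, x j ≤ 1) → |localDisc ξ x| ≤ B) :
    starDisc ξ ≤ ENNReal.ofReal B := by
  unfold starDisc
  rw [eLpNorm_exponent_top]
  apply eLpNormEssSup_le_of_ae_bound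
  filter_upwards [ae_restrict_mem measurableSet_Icc] with x hx
  exact h x (fun j => hx.1 j) (fun j => hx.2 j)

/-- One infinite sequence. -/
theorem sequences : ∀ d : ℕ, 2 ≤ d → ∃ C : ℝ, 0 < C ∧ ∃ ξ : ℕ → Fin d → ℝ,
      (∀ i j, 0 ≤ ξ i j ∧ ξ i j < 1) ∧
      ∀ m : ℕ, 3 ≤ m →
        (∀ x : Fin d → ℝ, (∀ j, 0 ≤ x j) → (∀ j, x j ≤ 1) → |localDisc (firstTerms ξ m) x| ≤
          C * (Real.log m) ^ ((d:ℝ) - saving (d + 1)) * (Real.log (Real.log m)) ^ 2 / m) ∧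
        (∀ x : Fin (d + 1) → ℝ, (∀ j, 0 ≤ x j) → (∀ j, x j ≤ 1) → |localDisc (graphPoints ξ m) x| ≤
          C * (Real.log m) ^ ((d:ℝ) - saving (d + 1)) * (Real.log (Real.log m)) ^ 2 / m) ∧
        starDisc (firstTerms ξ m) ≤ ENNReal.ofReal
          (C * (Real.log m) ^ ((d:ℝ) - saving (d + 1)) * (Real.log (Real.log m)) ^ 2 / m) ∧
        starDisc (graphPoints ξ m) ≤ ENNReal.ofReal
          (C * (Real.log m) ^ ((d:ℝ) - saving (d + 1)) * (Real.log (Real.log m)) ^ 2 / m) := by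
  classical
  intro d hd
  obtain ⟨n, rfl⟩ : ∃ n, d = n + 1 := ⟨d - 1, by omega⟩
  have hn : 1 ≤ n := by omega
  have hsv : saving (n + 1 + 1) = Pool.Agent.D0H39.SX6.sv n := by
    unfold saving Pool.Agent.D0H39.SX6.sv
    by_cases h : n = 1
    · rw [if_pos h, if_pos (by omega)]
    · rw [if_neg h, if_neg (by omega)]
  rw [hsv]
  set e : ℝ := (n:ℝ) + 1 - Pool.Agent.D0H39.SX6.sv n with he
  have he1 : 1 ≤ e := by
    have : (1:ℝ) ≤ n := by exact_mod_cast hn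
    have := Pool.Agent.D0H39.SX6.sv_le n
    rw [he]; linarith
  have hee : (((n + 1 : ℕ) : ℝ) - Pool.Agent.D0H39.SX6.sv n) = e := by rw [he]; push_cast; ring
  rw [hee]
  obtain ⟨C0, hC0, hfin⟩ := Pool.Agent.D0H39.SX6.star_final n hn
  have hblocks : ∀ N : ℕ, 3 ≤ N → ∃ η : ℕ → Fin (n + 1) → ℝ, (∀ i j, 0 ≤ η i j ∧ η i j < 1) ∧
      ∀ k ≤ N, ∀ y : Fin (n + 1) → ℝ, (∀ j, 0 ≤ y j) → (∀ j, y j ≤ 1) →
        |(cnt η k y : ℝ) - k * ∏ j, y j| ≤ (6 * C0) * gg e N := by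
    intro N hN
    obtain ⟨ξ, hξ, hb⟩ := hfin N hN
    have hb' : ∀ x : Fin (n + 1 + 1) → ℝ, (∀ j, 0 ≤ x j) → (∀ j, x j ≤ 1) →
        |(((univ : Finset (Fin N)).filter (fun i => ∀ j, ξ i j ≤ x j)).card : ℝ) -
          N * ∏ j, x j| ≤ C0 * gg e N := by
      intro x hx0 hx1
      have := hb x hx0 hx1 ((univ : Finset (Fin N)).filter (fun i => ∀ j, ξ i j ≤ x j))
        (fun i => by simp)
      unfold gg
      rw [← mul_assoc]
      exact this
    obtain ⟨η, h1, h2⟩ := sort_points ξ hξ hb'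
    refine ⟨η, h1, fun k hk y hy0 hy1 => (h2 k hk y hy0 hy1).trans (le_of_eq (by ring))⟩
  obtain ⟨C1, hC1, ζ, hζ, hseq⟩ := infinite_seq he1 (by positivity) hblocks
  obtain ⟨C2, hC2, hC12, hlift⟩ := lift_seq he1 hC1 hseq
  refine ⟨C2, hC2, ζ, hζ, ?_⟩
  intro m hm
  have hm0 : (0:ℝ) < m := by exact_mod_cast (by omega : 0 < m)
  have hA : ∀ x : Fin (n + 1) → ℝ, (∀ j, 0 ≤ x j) → (∀ j, x j ≤ 1) →
      |localDisc (firstTerms ζ m) x| ≤
        C2 * (Real.log m) ^ e * (Real.log (Real.log m)) ^ 2 / m := by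
    intro x hx0 hx1
    have h1 := hseq m hm x hx0 hx1
    rw [localDisc_eq (firstTerms ζ m) (fun i j => (hζ _ j).1) x (by omega)
      ((univ : Finset (Fin m)).filter (fun i => ∀ j, ζ i j ≤ x j)) (fun i => by
        simp [firstTerms])]
    have h2 : ((univ : Finset (Fin m)).filter (fun i : Fin m => ∀ j, ζ i j ≤ x j)).card =
        cnt ζ m x := by
      rw [cnt_def]
      apply Finset.card_bij (fun (i : Fin m) _ => (i : ℕ))
      · intro i hi
        rw [mem_filter] at hi ⊢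
        exact ⟨mem_range.2 i.2, hi.2⟩
      · intro a _ b _ hab
        exact Fin.ext hab
      · intro b hb
        rw [mem_filter, mem_range] at hb
        exact ⟨⟨b, hb.1⟩, by rw [mem_filter]; exact ⟨mem_univ _, hb.2⟩, rfl⟩
    rw [h2, abs_neg, abs_div, abs_of_pos hm0]
    apply div_le_div_of_nonneg_right _ hm0.le
    have h3 : C1 * gg e m ≤ C2 * gg e m := mul_le_mul_of_nonneg_right hC12 (gg_nonneg _ _)
    refine (h1.trans h3).trans (le_of_eq ?_)
    unfold gg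
    ring
  have hB : ∀ x : Fin (n + 1 + 1) → ℝ, (∀ j, 0 ≤ x j) → (∀ j, x j ≤ 1) →
      |localDisc (graphPoints ζ m) x| ≤
        C2 * (Real.log m) ^ e * (Real.log (Real.log m)) ^ 2 / m := by
    intro x hx0 hx1
    have hpos : ∀ (i : Fin m) (j : Fin (n + 1 + 1)), 0 ≤ graphPoints ζ m i j := by
      intro i j
      unfold graphPoints
      refine Fin.lastCases ?_ (fun j => ?_) j
      · rw [Fin.snoc_last]; positivity
      · rw [Fin.snoc_castSucc]; exact (hζ _ j).1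
    have hmem : ∀ i : Fin m, (∀ j, graphPoints ζ m i j ≤ x j) ↔
        (∀ j, ζ i j ≤ x (Fin.castSucc j)) ∧ ((i : ℕ) : ℝ) / m ≤ x (Fin.last (n + 1)) := by
      intro i
      unfold graphPoints
      constructor
      · intro h
        refine ⟨fun j => ?_, ?_⟩
        · have := h (Fin.castSucc j)
          rwa [Fin.snoc_castSucc] at this
        · have := h (Fin.last (n + 1))
          rwa [Fin.snoc_last] at this
      · intro h j
        refine Fin.lastCases ?_ (fun j => ?_) j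
        · rw [Fin.snoc_last]; exact h.2
        · rw [Fin.snoc_castSucc]; exact h.1 j
    set S := (univ : Finset (Fin m)).filter (fun i => ∀ j, graphPoints ζ m i j ≤ x j) with hS
    rw [localDisc_eq (graphPoints ζ m) hpos x (by omega) S (fun i => by simp [hS])]
    have h1 := hlift m hm (fun j => x (Fin.castSucc j)) (fun j => hx0 _) (fun j => hx1 _)
      (x (Fin.last (n + 1))) (hx0 _) (hx1 _) S (fun i => by
        rw [hS, mem_filter, ← hmem i]; simp)
    rw [Fin.prod_univ_castSucc, abs_neg, abs_div, abs_of_pos hm0]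
    apply div_le_div_of_nonneg_right _ hm0.le
    refine h1.trans (le_of_eq ?_)
    unfold gg
    ring
  exact ⟨hA, hB, starDisc_le _ hA, starDisc_le _ hB⟩

/-- Star discrepancy, saving `σ(3) = 1/7`, `σ(d) = 1/6` for `d ≥ 4` (`saving`):
(1) for every `d ≥ 3` there is `C > 0` with
`D(m,d)_∞ ≤ C (ln m)^(d-1-σ(d)) (ln ln m)^2 / m` for all `m ≥ 3`;
(2) for every `d ≥ 2` there are `C > 0` and ONE infinite sequence `ξ` in `[0,1)^d` such that for all
`m ≥ 3`, with `B = C (ln m)^(d-σ(d+1)) (ln ln m)^2 / m`, the local discrepancy of the first `m` terms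
and that of the `m` points `(ξ_i, i/m)` in dimension `d + 1` are at most `B` in absolute value at
every point of the cube, so both star discrepancies are at most `B`. -/
theorem _root_.Pool.Agent.Results.MP_173de9_an.StarDiscSixth.result :
    (∀ d : ℕ, 3 ≤ d → ∃ C : ℝ, 0 < C ∧ ∀ m : ℕ, 3 ≤ m →
      optDisc m d ≤ ENNReal.ofReal (C * (Real.log m) ^ ((d:ℝ) - 1 - saving d) *
        (Real.log (Real.log m)) ^ 2 / m)) ∧
    (∀ d : ℕ, 2 ≤ d → ∃ C : ℝ, 0 < C ∧ ∃ ξ : ℕ → Fin d → ℝ, (∀ i j, 0 ≤ ξ i j ∧ ξ i j < 1) ∧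
      ∀ m : ℕ, 3 ≤ m →
        (∀ x : Fin d → ℝ, (∀ j, 0 ≤ x j) → (∀ j, x j ≤ 1) → |localDisc (firstTerms ξ m) x| ≤
          C * (Real.log m) ^ ((d:ℝ) - saving (d + 1)) * (Real.log (Real.log m)) ^ 2 / m) ∧
        (∀ x : Fin (d + 1) → ℝ, (∀ j, 0 ≤ x j) → (∀ j, x j ≤ 1) → |localDisc (graphPoints ξ m) x| ≤
          C * (Real.log m) ^ ((d:ℝ) - saving (d + 1)) * (Real.log (Real.log m)) ^ 2 / m) ∧
        starDisc (firstTerms ξ m) ≤ ENNReal.ofReal
          (C * (Real.log m) ^ ((d:ℝ) - saving (d + 1)) * (Real.log (Real.log m)) ^ 2 / m) ∧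
        starDisc (graphPoints ξ m) ≤ ENNReal.ofReal
          (C * (Real.log m) ^ ((d:ℝ) - saving (d + 1)) * (Real.log (Real.log m)) ^ 2 / m)) := by
  refine ⟨fun d hd => ?_, sequences⟩
  obtain ⟨n, rfl⟩ : ∃ n, d = n + 1 := ⟨d - 1, by omega⟩
  obtain ⟨C, hC, ξ, hξ, h⟩ := sequences n (by omega)
  refine ⟨C, hC, fun m hm => ?_⟩
  have hm0 : (0:ℝ) < m := by exact_mod_cast (by omega : 0 < m)
  have hmem : ∀ μ, graphPoints ξ m μ ∈ Set.Icc (0 : Fin (n+1) → ℝ) 1 := by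
    intro μ
    constructor
    · intro j
      unfold graphPoints
      refine Fin.lastCases ?_ (fun j => ?_) j
      · rw [Fin.snoc_last]; exact div_nonneg (Nat.cast_nonneg _) hm0.le
      · rw [Fin.snoc_castSucc]; exact (hξ _ j).1
    · intro j
      unfold graphPoints
      refine Fin.lastCases ?_ (fun j => ?_) j
      · rw [Fin.snoc_last]
        show ((μ : ℕ) : ℝ) / m ≤ 1
        rw [div_le_one hm0]
        exact_mod_cast μ.2.le
      · rw [Fin.snoc_castSucc]; exact (hξ _ j).2.le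
  refine (iInf₂_le (graphPoints ξ m) hmem).trans ?_
  have h4 : (((n + 1 : ℕ) : ℝ) - 1 - saving (n + 1)) = ((n:ℝ) - saving (n + 1)) := by
    push_cast; ring
  rw [h4]
  exact (h m hm).2.2.2

end Pool.Agent.Results.MP_173de9_an.StarDiscSixth
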